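import Pool.Agent.Helper65.CG.Defs2
import Pool.Agent.Helper5.UB.Rho

/-!
# Project UB, module K3: copositivity for `m = 4, 5`
-/

set_option autoImplicit false

namespace Pool.Agent.Helper65.CG

open scoped Classical
open Pool.Agent.Helper65.CliqueGame

variable {n q m : ℕ}

namespace H32K

theorem sq_form {ι : Type} (T : Finset ι) (k : ι → ℕ) (hk : ∀ i ∈ T, 1 ≤ k i) {s u : ℝ}
    (hu : 0 < u) (g : ℕ → ℝ)
    (hM : ∀ a b : ℕ, 1 ≤ a → a ≤ b → g a * g b ≤ u * (s * rho m (a * b) - (a + b))) :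
    2 * (T.card : ℝ) * ∑ i ∈ T, (k i : ℝ) ≤ s * ∑ i ∈ T, ∑ j ∈ T, rho m (k i * k j) := by
  have h1 : ∀ i ∈ T, ∀ j ∈ T, g (k i) * g (k j) ≤
      u * (s * rho m (k i * k j) - ((k i : ℝ) + k j)) := by
    intro i hi j hj
    rcases le_total (k i) (k j) with h | h
    · exact hM _ _ (hk i hi) h
    · have := hM _ _ (hk j hj) h
      rw [mul_comm (k i) (k j), mul_comm (g (k i)), add_comm ((k i : ℝ))]
      exact this
  have h2 : ∑ i ∈ T, ∑ j ∈ T, g (k i) * g (k j) ≤
      ∑ i ∈ T, ∑ j ∈ T, u * (s * rho m (k i * k j) - ((k i : ℝ) + k j)) :=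
    Finset.sum_le_sum fun i hi => Finset.sum_le_sum fun j hj => h1 i hi j hj
  have h3 : ∑ i ∈ T, ∑ j ∈ T, g (k i) * g (k j) = (∑ i ∈ T, g (k i)) ^ 2 := by
    rw [sq, Finset.sum_mul_sum]
  have h4 : ∑ i ∈ T, ∑ j ∈ T, u * (s * rho m (k i * k j) - ((k i : ℝ) + k j)) =
      u * (s * ∑ i ∈ T, ∑ j ∈ T, rho m (k i * k j) - 2 * (T.card : ℝ) * ∑ i ∈ T, (k i : ℝ)) := by
    simp only [← Finset.mul_sum, Finset.sum_sub_distrib, Finset.sum_add_distrib,
      Finset.sum_const, nsmul_eq_mul]
    ring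
  rw [h3, h4] at h2
  have h5 : 0 ≤ s * ∑ i ∈ T, ∑ j ∈ T, rho m (k i * k j) -
      2 * (T.card : ℝ) * ∑ i ∈ T, (k i : ℝ) :=
    nonneg_of_mul_nonneg_right (le_trans (sq_nonneg _) h2) hu
  linarith

theorem logb_gt {a : ℝ} {p r : ℕ} (hr : 0 < r) (h : (2 : ℝ) ^ p ≤ a ^ r) :
    (p : ℝ) / r ≤ Real.logb 2 a := by
  have hr' : (0 : ℝ) < r := by exact_mod_cast hr
  rw [div_le_iff₀ hr']
  have h1 := Real.logb_le_logb_of_le one_lt_two (by positivity) h
  rw [Real.logb_pow, Real.logb_pow, Real.logb_self_eq_one one_lt_two] at h1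
  linarith

theorem logb_lt {a : ℝ} (ha : 0 < a) {p r : ℕ} (hr : 0 < r) (h : a ^ r ≤ (2 : ℝ) ^ p) :
    Real.logb 2 a ≤ (p : ℝ) / r := by
  have hr' : (0 : ℝ) < r := by exact_mod_cast hr
  rw [le_div_iff₀ hr']
  have h1 := Real.logb_le_logb_of_le one_lt_two (by positivity) h
  rw [Real.logb_pow, Real.logb_pow, Real.logb_self_eq_one one_lt_two] at h1
  linarith

/-- `m = 4` -/
theorem four {ι : Type} (T : Finset ι) (k : ι → ℕ) (hk : ∀ i ∈ T, 1 ≤ k i) :
    2 * (T.card : ℝ) * ∑ i ∈ T, (k i : ℝ) ≤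
      Cst 4 * ∑ i ∈ T, ∑ j ∈ T, rho 4 (k i * k j) := by
  have hC : Cst 4 = (1 + Real.sqrt (4 * (4 * Real.logb 2 5 - 2 * Real.logb 2 5 + 1) /
      (4 - Real.logb 2 5))) / Real.logb 2 5 := by
    unfold Cst
    rw [if_neg (by norm_num), if_pos (by norm_num)]
    norm_num
  set c : ℝ := Real.logb 2 5 with hc
  have c1 : (65 : ℝ) / 28 ≤ c := by
    have := logb_gt (a := 5) (p := 65) (r := 28) (by norm_num) (by norm_num)
    exact_mod_cast this
  have c2 : c ≤ (72 : ℝ) / 31 := by
    have := logb_lt (a := 5) (by norm_num) (p := 72) (r := 31) (by norm_num) (by norm_num)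
    exact_mod_cast this
  have c0 : 0 < c := by linarith
  set X : ℝ := 4 * (4 * c - 2 * c + 1) / (4 - c) with hX
  have hX0 : 0 ≤ X := by
    apply div_nonneg <;> linarith
  set y : ℝ := 1 + Real.sqrt X with hy
  have hy2 : (y - 1) ^ 2 * (4 - c) = 8 * c + 4 := by
    have : (y - 1) ^ 2 = X := by
      rw [hy, add_sub_cancel_left, Real.sq_sqrt hX0]
    rw [this, hX, div_mul_cancel₀ _ (by linarith)]
    ring
  have y1 : (14 : ℝ) / 3 ≤ y := by
    have : (11 : ℝ) / 3 ≤ Real.sqrt X := by
      apply Real.le_sqrt_of_sq_le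
      rw [hX, le_div_iff₀ (by linarith)]
      linarith
    linarith
  obtain ⟨s, hs⟩ : ∃ s, s = Cst 4 := ⟨_, rfl⟩
  have hsy : s * c = y := by
    rw [hs, hC, div_mul_cancel₀ _ c0.ne']
  have s2 : 2 < s := by
    have : 2 * c < s * c := by rw [hsy]; linarith
    exact lt_of_mul_lt_mul_right this c0.le
  have hid : (s - 2) * (4 * y - 8) = (5 - y) ^ 2 := by
    have h1 : c * ((s - 2) * (4 * y - 8)) = c * (5 - y) ^ 2 := by
      have : c * ((s - 2) * (4 * y - 8)) = (y - 2 * c) * (4 * y - 8) := by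
        rw [← hsy]; ring
      rw [this]
      linear_combination hy2
    exact mul_left_cancel₀ c0.ne' h1
  rw [← hs]
  have hlin : ∀ x : ℕ, y / 4 * x ≤ s * rho 4 x := by
    intro x
    have := mul_le_mul_of_nonneg_left (rho_lin (m := 4) (by norm_num) x) (by linarith : 0 ≤ s)
    have e : s * (Real.logb 2 (((4 : ℕ) : ℝ) + 1) / (4 : ℕ) * x) = y / 4 * x := by
      rw [← hsy, hc]
      push_cast
      norm_num
      ring
    linarith
  refine sq_form (m := 4) T k hk (u := s - 2) (by linarith)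
    (fun a => if a = 1 then s - 2 else if a = 4 then y - 5 else 0) ?_
  intro a b ha hab
  have hu : 0 < s - 2 := by linarith
  rcases Nat.lt_or_ge a 2 with ha2 | ha2
  · -- a = 1
    have ha1 : a = 1 := by omega
    subst ha1
    rw [one_mul, if_pos rfl]
    refine mul_le_mul_of_nonneg_left ?_ hu.le
    by_cases b1 : b = 1
    · subst b1
      rw [if_pos rfl, rho_eq (by norm_num) (by norm_num)]
      norm_num
    rw [if_neg b1]
    by_cases b4 : b = 4
    · subst b4
      rw [if_pos rfl, rho_eq (by norm_num) (by norm_num)]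
      have : Real.logb 2 (1 + ((4 : ℕ) : ℝ)) = c := by norm_num [hc]
      rw [this, hsy]
      norm_num
    rw [if_neg b4]
    by_cases b2 : b = 2
    · subst b2
      rw [rho_eq (by norm_num) (by norm_num)]
      have h3 : (3 : ℝ) / 2 ≤ Real.logb 2 (1 + ((2 : ℕ) : ℝ)) := by
        have := logb_gt (a := 1 + ((2 : ℕ) : ℝ)) (p := 3) (r := 2) (by norm_num)
          (by norm_num)
        exact_mod_cast this
      generalize Real.logb 2 (1 + ((2 : ℕ) : ℝ)) = z at h3 ⊢
      have h4 := mul_le_mul s2.le h3 (by norm_num) (by linarith)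
      push_cast
      linarith
    by_cases b3 : b = 3
    · subst b3
      rw [rho_eq (by norm_num) (by norm_num)]
      have h3 : Real.logb 2 (1 + ((3 : ℕ) : ℝ)) = 2 := by
        rw [show (1 + ((3 : ℕ) : ℝ)) = 2 ^ (2 : ℝ) by norm_num]
        exact Real.logb_rpow (by norm_num) (by norm_num)
      rw [h3]
      push_cast
      linarith
    by_cases b5 : b = 5
    · subst b5
      have h5 : rho 4 5 = c + 1 := by
        unfold rho
        norm_num [hc]
      rw [h5]
      push_cast
      nlinarith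
    · have b6 : 6 ≤ b := by omega
      have b6' : (6 : ℝ) ≤ b := by exact_mod_cast b6
      have := hlin b
      push_cast
      nlinarith
  · -- a, b ≥ 2
    have hb2 : 2 ≤ b := le_trans ha2 hab
    have ha2' : (2 : ℝ) ≤ a := by exact_mod_cast ha2
    have hb2' : (2 : ℝ) ≤ b := by exact_mod_cast hb2
    have hab2 : (a : ℝ) + b ≤ a * b := by nlinarith
    have hM0 : 0 ≤ s * rho 4 (a * b) - (a + b) := by
      have := hlin (a * b)
      push_cast at this
      have h7 := mul_le_mul_of_nonneg_right y1 (by positivity : (0 : ℝ) ≤ (a : ℝ) * b)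
      linarith
    rw [if_neg (show ¬ a = 1 by omega), if_neg (show ¬ b = 1 by omega)]
    by_cases h44 : a = 4 ∧ b = 4
    · obtain ⟨rfl, rfl⟩ := h44
      have h16 : rho 4 (4 * 4) = 4 * c := by
        unfold rho
        norm_num [hc]
      rw [if_pos rfl, h16]
      push_cast
      have : s * (4 * c) = 4 * y := by rw [← hsy]; ring
      rw [this]
      linarith
    · have : (if a = 4 then y - 5 else 0) * (if b = 4 then y - 5 else 0) = 0 := by
        by_cases h4 : a = 4
        · have : b ≠ 4 := fun hb => h44 ⟨h4, hb⟩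
          rw [if_neg this, mul_zero]
        · rw [if_neg h4, zero_mul]
      rw [this]
      exact mul_nonneg hu.le hM0

/-- `m = 5` -/
theorem five {ι : Type} (T : Finset ι) (k : ι → ℕ) (hk : ∀ i ∈ T, 1 ≤ k i) :
    2 * (T.card : ℝ) * ∑ i ∈ T, (k i : ℝ) ≤
      Cst 5 * ∑ i ∈ T, ∑ j ∈ T, rho 5 (k i * k j) := by
  have hC : Cst 5 = (1 + Real.sqrt (5 * (5 * Real.logb 2 6 - 2 * Real.logb 2 6 + 1) /
      (5 - Real.logb 2 6))) / Real.logb 2 6 := by
    unfold Cst
    rw [if_neg (by norm_num), if_pos (by norm_num)]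
    norm_num
  set c : ℝ := Real.logb 2 6 with hc
  have c1 : (31 : ℝ) / 12 ≤ c := by
    have := logb_gt (a := 6) (p := 31) (r := 12) (by norm_num) (by norm_num)
    exact_mod_cast this
  have c2 : c ≤ (75 : ℝ) / 29 := by
    have := logb_lt (a := 6) (by norm_num) (p := 75) (r := 29) (by norm_num) (by norm_num)
    exact_mod_cast this
  have c0 : 0 < c := by linarith
  set X : ℝ := 5 * (5 * c - 2 * c + 1) / (5 - c) with hX
  have hX0 : 0 ≤ X := by
    apply div_nonneg <;> linarith
  set y : ℝ := 1 + Real.sqrt X with hy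
  have hy2 : (y - 1) ^ 2 * (5 - c) = 15 * c + 5 := by
    have : (y - 1) ^ 2 = X := by
      rw [hy, add_sub_cancel_left, Real.sq_sqrt hX0]
    rw [this, hX, div_mul_cancel₀ _ (by linarith)]
    ring
  have y1 : (21 : ℝ) / 4 ≤ y := by
    have : (17 : ℝ) / 4 ≤ Real.sqrt X := by
      apply Real.le_sqrt_of_sq_le
      rw [hX, le_div_iff₀ (by linarith)]
      linarith
    linarith
  obtain ⟨s, hs⟩ : ∃ s, s = Cst 5 := ⟨_, rfl⟩
  have hsy : s * c = y := by
    rw [hs, hC, div_mul_cancel₀ _ c0.ne']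
  have s2 : (203 : ℝ) / 100 ≤ s := by
    have : 203 / 100 * c ≤ s * c := by rw [hsy]; linarith
    exact le_of_mul_le_mul_right this c0
  have hid : (s - 2) * (5 * y - 10) = (6 - y) ^ 2 := by
    have h1 : c * ((s - 2) * (5 * y - 10)) = c * (6 - y) ^ 2 := by
      have : c * ((s - 2) * (5 * y - 10)) = (y - 2 * c) * (5 * y - 10) := by
        rw [← hsy]; ring
      rw [this]
      linear_combination hy2
    exact mul_left_cancel₀ c0.ne' h1
  rw [← hs]
  have hlin : ∀ x : ℕ, y / 5 * x ≤ s * rho 5 x := by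
    intro x
    have := mul_le_mul_of_nonneg_left (rho_lin (m := 5) (by norm_num) x) (by linarith : 0 ≤ s)
    have e : s * (Real.logb 2 (((5 : ℕ) : ℝ) + 1) / (5 : ℕ) * x) = y / 5 * x := by
      rw [← hsy, hc]
      push_cast
      norm_num
      ring
    linarith
  have hlin2 : ∀ x : ℕ, 21 / 20 * (x : ℝ) ≤ s * rho 5 x := by
    intro x
    have hx : (0 : ℝ) ≤ x := Nat.cast_nonneg _
    have := hlin x
    nlinarith
  have log3 : Real.logb 2 3 = c - 1 := by
    have : c = Real.logb 2 2 + Real.logb 2 3 := by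
      rw [← Real.logb_mul (by norm_num) (by norm_num), hc]
      norm_num
    rw [this, Real.logb_self_eq_one one_lt_two]
    ring
  refine sq_form (m := 5) T k hk (u := s - 2) (by linarith)
    (fun a => if a = 1 then s - 2 else if a = 4 then -(3 / 10) else if a = 5 then y - 6 else
      if 6 ≤ a then -(7 / 10) else 0) ?_
  intro a b ha hab
  have hu : (3 : ℝ) / 100 ≤ s - 2 := by linarith
  rcases Nat.lt_or_ge a 2 with ha2 | ha2
  · -- a = 1
    have ha1 : a = 1 := by omega
    subst ha1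
    rw [one_mul, if_pos rfl]
    refine mul_le_mul_of_nonneg_left ?_ (by linarith)
    by_cases b1 : b = 1
    · subst b1
      rw [if_pos rfl, rho_eq (by norm_num) (by norm_num)]
      norm_num
    rw [if_neg b1]
    by_cases b4 : b = 4
    · subst b4
      rw [if_pos rfl, rho_eq (by norm_num) (by norm_num)]
      have h5 : (65 : ℝ) / 28 ≤ Real.logb 2 (1 + ((4 : ℕ) : ℝ)) := by
        have := logb_gt (a := 1 + ((4 : ℕ) : ℝ)) (p := 65) (r := 28) (by norm_num)
          (by norm_num)
        exact_mod_cast this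
      push_cast at h5 ⊢
      nlinarith
    rw [if_neg b4]
    by_cases b5 : b = 5
    · subst b5
      rw [if_pos rfl, rho_eq (by norm_num) (by norm_num)]
      have : Real.logb 2 (1 + ((5 : ℕ) : ℝ)) = c := by norm_num [hc]
      rw [this, hsy]
      norm_num
    rw [if_neg b5]
    by_cases b6 : 6 ≤ b
    · rw [if_pos b6]
      have b6' : (6 : ℝ) ≤ b := by exact_mod_cast b6
      have := hlin2 b
      push_cast
      linarith
    rw [if_neg b6]
    by_cases b2 : b = 2
    · subst b2
      rw [rho_eq (by norm_num) (by norm_num)]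
      have h3 : Real.logb 2 (1 + ((2 : ℕ) : ℝ)) = c - 1 := by
        rw [← log3]; norm_num
      rw [h3]
      push_cast
      nlinarith
    · have b3 : b = 3 := by omega
      subst b3
      rw [rho_eq (by norm_num) (by norm_num)]
      have h3 : Real.logb 2 (1 + ((3 : ℕ) : ℝ)) = 2 := by
        rw [show (1 + ((3 : ℕ) : ℝ)) = 2 ^ (2 : ℝ) by norm_num]
        exact Real.logb_rpow (by norm_num) (by norm_num)
      rw [h3]
      push_cast
      linarith
  · -- a, b ≥ 2
    have hb2 : 2 ≤ b := le_trans ha2 hab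
    have ha2' : (2 : ℝ) ≤ a := by exact_mod_cast ha2
    have hb2' : (2 : ℝ) ≤ b := by exact_mod_cast hb2
    have hML : 21 / 20 * ((a : ℝ) * b) - (a + b) ≤ s * rho 5 (a * b) - (a + b) := by
      have := hlin2 (a * b)
      push_cast at this
      linarith
    have hM0 : 0 ≤ s * rho 5 (a * b) - (a + b) := by
      nlinarith
    rw [if_neg (show ¬ a = 1 by omega), if_neg (show ¬ b = 1 by omega)]
    have hMm : ∀ z : ℝ, 0 ≤ z → z ≤ 21 / 20 * ((a : ℝ) * b) - (a + b) →
        3 / 100 * z ≤ (s - 2) * (s * rho 5 (a * b) - (a + b)) := by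
      intro z hz hz2
      exact mul_le_mul hu (le_trans hz2 hML) hz (by linarith)
    by_cases a4 : a = 4
    · subst a4
      rw [if_pos rfl]
      by_cases b4 : b = 4
      · subst b4
        rw [if_pos rfl]
        have := hMm (88 / 10) (by norm_num) (by norm_num)
        linarith
      rw [if_neg b4]
      by_cases b5 : b = 5
      · subst b5
        rw [if_pos rfl]
        have := hMm 12 (by norm_num) (by norm_num)
        linarith
      have b6 : 6 ≤ b := by omega
      have b6' : (6 : ℝ) ≤ b := by exact_mod_cast b6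
      rw [if_neg b5, if_pos b6]
      have := hMm 15 (by norm_num) (by push_cast; linarith)
      linarith
    rw [if_neg a4]
    by_cases a5 : a = 5
    · subst a5
      rw [if_pos rfl, if_neg (show ¬ b = 4 by omega)]
      by_cases b5 : b = 5
      · subst b5
        rw [if_pos rfl]
        have h25 : rho 5 (5 * 5) = 5 * c := by
          unfold rho
          norm_num [hc]
        rw [h25]
        push_cast
        have : s * (5 * c) = 5 * y := by rw [← hsy]; ring
        rw [this]
        linarith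
      have b6 : 6 ≤ b := by omega
      have b6' : (6 : ℝ) ≤ b := by exact_mod_cast b6
      rw [if_neg b5, if_pos b6]
      have := hMm (205 / 10) (by norm_num) (by push_cast; linarith)
      linarith
    rw [if_neg a5]
    by_cases a6 : 6 ≤ a
    · have b6 : 6 ≤ b := le_trans a6 hab
      have a6' : (6 : ℝ) ≤ a := by exact_mod_cast a6
      have b6' : (6 : ℝ) ≤ b := by exact_mod_cast b6
      rw [if_pos a6, if_neg (show ¬ b = 4 by omega), if_neg (show ¬ b = 5 by omega), if_pos b6]
      have := hMm 25 (by norm_num) (by nlinarith)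
      linarith
    · rw [if_neg a6, zero_mul]
      exact mul_nonneg (by linarith) hM0

end H32K

open H32K in
theorem copos_mid (hm : m = 4 ∨ m = 5) {ι : Type} (T : Finset ι) (k : ι → ℕ)
    (hk : ∀ i ∈ T, 1 ≤ k i) :
    2 * (T.card : ℝ) * ∑ i ∈ T, (k i : ℝ) ≤ Cst m * ∑ i ∈ T, ∑ j ∈ T, rho m (k i * k j) := by
  rcases hm with rfl | rfl
  · exact four T k hk
  · exact five T k hk

end Pool.Agent.Helper65.CG
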