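import Pool.Agent.Helper65.CG.Defs2
import Pool.Agent.Helper46.UB.Tuples

/-!
# Project UB, module T3: few slots are derived from few slots
-/

set_option autoImplicit false

namespace Pool.Agent.Helper65.CG

open scoped Classical
open Pool.Agent.Helper65.CliqueGame

variable {n q m : ℕ}

namespace H32D

theorem subset_dstep (ℓ : Sym2 (Fin n) → ℕ) (Z : Fin q → Fin n) (S : Finset (Fin q)) :
    S ⊆ dstep ℓ Z S := by
  intro k hk
  unfold dstep
  exact Finset.mem_filter.2 ⟨Finset.mem_univ _, Or.inl hk⟩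

theorem iter_mono (ℓ : Sym2 (Fin n) → ℕ) (Z : Fin q → Fin n) (S : Finset (Fin q)) {r r' : ℕ}
    (h : r ≤ r') : (dstep ℓ Z)^[r] S ⊆ (dstep ℓ Z)^[r'] S := by
  induction h with
  | refl => exact Finset.Subset.refl _
  | step _ ih =>
    rw [Function.iterate_succ_apply']
    exact ih.trans (subset_dstep ℓ Z _)

/-- the code of a derivation -/
def Code (ℓ : Sym2 (Fin n) → ℕ) (vt : ℕ → Fin (2 * m) → Fin n) (Z : Fin q → Fin n)
    (S : Finset (Fin q)) (k : Fin q) (o : Option ((Fin q × Fin q) × Fin (2 * m))) : Prop :=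
  (∀ i j t, o = some ((i, j), t) → Z k = vt (lk ℓ Z i j) t) ∧
  ∀ r, k ∈ (dstep ℓ Z)^[r + 1] S → k ∉ (dstep ℓ Z)^[r] S →
    ∃ i j t, o = some ((i, j), t) ∧ i ∈ (dstep ℓ Z)^[r] S ∧ j ∈ (dstep ℓ Z)^[r] S

theorem exists_code {ℓ : Sym2 (Fin n) → ℕ} {vt : ℕ → Fin (2 * m) → Fin n} (hvt : Enum m ℓ vt)
    (Z : Fin q → Fin n) (S : Finset (Fin q)) (k : Fin q) :
    ∃ o, Code ℓ vt Z S k o := by
  by_cases hr : ∃ r, k ∈ (dstep ℓ Z)^[r + 1] S ∧ k ∉ (dstep ℓ Z)^[r] S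
  · obtain ⟨r, h1, h2⟩ := hr
    have h1' := h1
    rw [Function.iterate_succ_apply'] at h1'
    unfold dstep at h1'
    rcases (Finset.mem_filter.1 h1').2 with h3 | ⟨i, hi, j, hj, h, h4, h5⟩
    · exact absurd h3 h2
    · obtain ⟨t, ht⟩ := hvt (lk ℓ Z i j) (Z k) h4 ⟨s(Z k, Z h), h5, Sym2.mem_mk_left _ _⟩
      refine ⟨some ((i, j), t), ?_, ?_⟩
      · intro i' j' t' he
        rw [Option.some_inj, Prod.mk.injEq, Prod.mk.injEq] at he
        obtain ⟨⟨rfl, rfl⟩, rfl⟩ := he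
        exact ht.symm
      · intro r' h1r h2r
        have hrr : r' = r := by
          rcases lt_trichotomy r' r with hlt | heq | hgt
          · exact absurd (iter_mono ℓ Z S (Nat.succ_le_of_lt hlt) h1r) h2
          · exact heq
          · exact absurd (iter_mono ℓ Z S (Nat.succ_le_of_lt hgt) h1) h2r
        subst hrr
        exact ⟨i, j, t, rfl, hi, hj⟩
  · refine ⟨none, ?_, ?_⟩
    · intro i j t h
      exact absurd h (by simp)
    · intro r h1 h2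
      exact absurd ⟨r, h1, h2⟩ hr

theorem eq_on {ℓ : Sym2 (Fin n) → ℕ} {vt : ℕ → Fin (2 * m) → Fin n} {Z Z' : Fin q → Fin n}
    {S : Finset (Fin q)} {c : Fin q → Option ((Fin q × Fin q) × Fin (2 * m))}
    (hc : ∀ k, Code ℓ vt Z S k (c k)) (hc' : ∀ k, Code ℓ vt Z' S k (c k))
    (hS : ∀ i ∈ S, Z i = Z' i) (r : ℕ) : ∀ k ∈ (dstep ℓ Z)^[r] S, Z k = Z' k := by
  induction r with
  | zero => exact hS
  | succ r ih =>
    intro k hk
    by_cases hk' : k ∈ (dstep ℓ Z)^[r] S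
    · exact ih k hk'
    · obtain ⟨i, j, t, h1, h2, h3⟩ := (hc k).2 r hk hk'
      rw [(hc k).1 i j t h1, (hc' k).1 i j t h1]
      unfold lk
      rw [ih i h2, ih j h3]

theorem pigeon {α β : Type} [Fintype β] [Nonempty β] (B : Finset α) (f : α → β) :
    ∃ y : β, ∃ B' ⊆ B, (∀ x ∈ B', f x = y) ∧
      (B.card : ℝ) ≤ (Fintype.card β : ℝ) * B'.card := by
  have hpos : (0 : ℝ) < Fintype.card β := by exact_mod_cast Fintype.card_pos
  obtain ⟨y, -, hy⟩ := Finset.exists_le_card_fiber_of_nsmul_le_card_of_maps_to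
    (s := B) (t := (Finset.univ : Finset β)) (f := f) (b := (B.card : ℝ) / Fintype.card β)
    (fun _ _ => Finset.mem_univ _) Finset.univ_nonempty
    (by rw [nsmul_eq_mul, Finset.card_univ]; exact (mul_div_cancel₀ _ hpos.ne').le)
  refine ⟨y, B.filter (fun x => f x = y), Finset.filter_subset _ _,
    fun x hx => (Finset.mem_filter.1 hx).2, ?_⟩
  rw [div_le_iff₀ hpos] at hy
  linarith

theorem lb_mono {a b : ℕ} (ha : 1 ≤ a) (h : a ≤ b) : lb a ≤ lb b := by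
  unfold lb
  exact Real.logb_le_logb_of_le one_lt_two (by exact_mod_cast ha) (by exact_mod_cast h)

end H32D

open H32D in
theorem derive {ℓ : Sym2 (Fin n) → ℕ} (hm : 1 ≤ m) (hn : 1 ≤ n) (hℓ : Lab m ℓ)
    {A : Finset (Fin q → Fin n)} {ξ : ℝ} (hξ : 0 ≤ ξ) (h : RegS A ξ) (s₀ τ₀ : ℕ)
    (hnum : s₀ * Lg n + q * (2 + Real.logb 2 (2 * m * (q : ℝ) ^ 2 * (q + 1) + 1)) + 2 <
      ξ * Lg n * (τ₀ + 1)) :
    4 * (A.filter (fun Z => ¬ Tame ℓ Z (Fr A) s₀ τ₀)).card ≤ A.card := by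
  obtain ⟨vt, hvt⟩ := exists_enum hm hn hℓ
  have hLg : 0 ≤ Lg n := Real.logb_nonneg one_lt_two (by exact_mod_cast hn)
  by_contra hcon
  push Not at hcon
  set B := A.filter (fun Z => ¬ Tame ℓ Z (Fr A) s₀ τ₀) with hBdef
  have hBpos : 0 < B.card := by
    rcases Nat.eq_zero_or_pos B.card with h0 | h0
    · rw [h0] at hcon; omega
    · exact h0
  have : Nonempty (Fin n) := ⟨⟨0, hn⟩⟩
  -- the codes
  have hcode : ∀ Z : Fin q → Fin n, ∃ Sc : Finset (Fin q) ×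
      (Fin q → Option ((Fin q × Fin q) × Fin (2 * m))),
      Z ∈ B → Sc.1.card ≤ s₀ ∧ τ₀ < (dcl ℓ Z Sc.1 ∩ Fr A).card ∧
        ∀ k, Code ℓ vt Z Sc.1 k (Sc.2 k) := by
    intro Z
    by_cases hZ : Z ∈ B
    · have hZ' := (Finset.mem_filter.1 hZ).2
      unfold Tame at hZ'
      push Not at hZ'
      obtain ⟨S, hS1, hS2⟩ := hZ'
      choose c hc using exists_code (m := m) hvt Z S
      exact ⟨(S, c), fun _ => ⟨hS1, hS2, hc⟩⟩
    · exact ⟨(∅, fun _ => none), fun h => absurd h hZ⟩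
  choose Sc hSc using hcode
  have : Nonempty (Finset (Fin q) × (Fin q → Option ((Fin q × Fin q) × Fin (2 * m)))) :=
    ⟨(∅, fun _ => none)⟩
  obtain ⟨⟨S, c⟩, B₁, hB₁B, hB₁, h1⟩ := pigeon B Sc
  have : Nonempty (S → Fin n) := ⟨fun _ => ⟨0, hn⟩⟩
  obtain ⟨v, B₂, hB₂B, hB₂, h2⟩ := pigeon B₁ (fun Z => fun i : S => Z i)
  -- cardinalities
  set N₁ : ℝ := (Fintype.card (Finset (Fin q) × (Fin q → Option ((Fin q × Fin q) × Fin (2 * m)))) : ℝ)
    with hN₁
  set N₂ : ℝ := (Fintype.card (S → Fin n) : ℝ) with hN₂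
  have hN₁v : N₁ = (2 : ℝ) ^ q * ((2 * m * (q : ℝ) ^ 2 + 1)) ^ q := by
    rw [hN₁]
    simp only [Fintype.card_prod, Fintype.card_finset, Fintype.card_fin, Fintype.card_fun,
      Fintype.card_option]
    push_cast
    ring
  have hN₂v : N₂ = (n : ℝ) ^ S.card := by
    rw [hN₂]
    simp only [Fintype.card_fun, Fintype.card_fin, Fintype.card_coe]
    push_cast
    rfl
  have hBr : (0 : ℝ) < B.card := by exact_mod_cast hBpos
  have hnr : (1 : ℝ) ≤ n := by exact_mod_cast hn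
  have hbase : (1 : ℝ) ≤ 2 * m * (q : ℝ) ^ 2 + 1 := by
    have : (0 : ℝ) ≤ 2 * m * (q : ℝ) ^ 2 := by positivity
    linarith
  have hN₁p : 0 < N₁ := by rw [hN₁v]; positivity
  have hN₂p : 0 < N₂ := by rw [hN₂v]; positivity
  have hB₁r : (0 : ℝ) < B₁.card := pos_of_mul_pos_right (lt_of_lt_of_le hBr h1) hN₁p.le
  have hB₂r : (0 : ℝ) < B₂.card := pos_of_mul_pos_right (lt_of_lt_of_le hB₁r h2) hN₂p.le
  have hB₂0 : B₂.Nonempty := by
    rw [← Finset.card_pos]; exact_mod_cast hB₂r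
  have hB₂A : B₂ ⊆ A := hB₂B.trans (hB₁B.trans (Finset.filter_subset _ _))
  obtain ⟨Z₀, hZ₀⟩ := hB₂0
  have hprop : ∀ Z ∈ B₂, Z ∈ B ∧ Sc Z = (S, c) ∧ ∀ i ∈ S, Z i = Z₀ i := by
    intro Z hZ
    refine ⟨hB₁B (hB₂B hZ), hB₁ Z (hB₂B hZ), fun i hi => ?_⟩
    have e := (hB₂ Z hZ).trans (hB₂ Z₀ hZ₀).symm
    exact congrFun e ⟨i, hi⟩
  have hZ₀B := hprop Z₀ hZ₀
  have hcodeZ : ∀ Z ∈ B₂, ∀ k, Code ℓ vt Z S k (c k) := by
    intro Z hZ
    obtain ⟨a1, a2, -⟩ := hprop Z hZ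
    have a3 := hSc Z a1
    rw [a2] at a3
    exact a3.2.2
  have hZ₀S : S.card ≤ s₀ ∧ τ₀ < (dcl ℓ Z₀ S ∩ Fr A).card := by
    have a3 := hSc Z₀ hZ₀B.1
    rw [hZ₀B.2.1] at a3
    exact ⟨a3.1, a3.2.1⟩
  have hconst : ∀ k ∈ dcl ℓ Z₀ S, (supp B₂ k).card = 1 := by
    intro k hk
    rw [Finset.card_eq_one]
    refine ⟨Z₀ k, ?_⟩
    unfold supp
    ext x
    simp only [Finset.mem_image, Finset.mem_singleton]
    constructor
    · rintro ⟨Z, hZ, rfl⟩
      exact (eq_on (hcodeZ Z₀ hZ₀) (hcodeZ Z hZ) (fun i hi => ((hprop Z hZ).2.2 i hi).symm) q k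
        hk).symm
    · rintro rfl
      exact ⟨Z₀, hZ₀, rfl⟩
  -- regularity
  have hreg := h B₂ hB₂A ⟨Z₀, hZ₀⟩
  have hsum : (τ₀ + 1 : ℝ) * Lg n ≤ ∑ i, ((lb (supp A i).card - lb (supp B₂ i).card) +
      if 1 < (supp A i).card ∧ (supp B₂ i).card = 1 then Lg n else 0) := by
    have hterm : ∀ i : Fin q, (if i ∈ dcl ℓ Z₀ S ∩ Fr A then Lg n else 0) ≤
        ((lb (supp A i).card - lb (supp B₂ i).card) +
          if 1 < (supp A i).card ∧ (supp B₂ i).card = 1 then Lg n else 0) := by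
      intro i
      have hsub : supp B₂ i ⊆ supp A i := Finset.image_subset_image hB₂A
      have hne : 1 ≤ (supp B₂ i).card :=
        Finset.card_pos.2 ⟨Z₀ i, Finset.mem_image_of_mem _ hZ₀⟩
      have hle : lb (supp B₂ i).card ≤ lb (supp A i).card :=
        lb_mono hne (Finset.card_le_card hsub)
      by_cases hi : i ∈ dcl ℓ Z₀ S ∩ Fr A
      · rw [if_pos hi]
        obtain ⟨hi1, hi2⟩ := Finset.mem_inter.1 hi
        have : 1 < (supp A i).card := (Finset.mem_filter.1 hi2).2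
        rw [if_pos ⟨this, hconst i hi1⟩]
        linarith
      · rw [if_neg hi]
        have : (0 : ℝ) ≤ if 1 < (supp A i).card ∧ (supp B₂ i).card = 1 then Lg n else 0 := by
          split_ifs
          · exact hLg
          · exact le_refl _
        linarith
    refine le_trans ?_ (Finset.sum_le_sum (fun i _ => hterm i))
    rw [Finset.sum_ite_mem, Finset.univ_inter, Finset.sum_const, nsmul_eq_mul]
    have : (τ₀ + 1 : ℝ) ≤ ((dcl ℓ Z₀ S ∩ Fr A).card : ℝ) := by exact_mod_cast hZ₀S.2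
    exact mul_le_mul_of_nonneg_right this hLg
  -- the logarithm
  have hlog : lb A.card - lb B₂.card ≤ 2 + (q + q * Real.logb 2 (2 * m * (q : ℝ) ^ 2 + 1)) +
      s₀ * Lg n := by
    have hA4 : (A.card : ℝ) ≤ 4 * B.card := by exact_mod_cast hcon.le
    have hAp : (0 : ℝ) < A.card := by
      have : 0 < A.card := Finset.card_pos.2 ⟨Z₀, hB₂A hZ₀⟩
      exact_mod_cast this
    have e1 : (B.card : ℝ) ≤ N₁ * B₁.card := h1
    have e2 : (B₁.card : ℝ) ≤ N₂ * B₂.card := h2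
    have e3 : (A.card : ℝ) ≤ 4 * (N₁ * (N₂ * B₂.card)) := by
      have : N₁ * B₁.card ≤ N₁ * (N₂ * B₂.card) := mul_le_mul_of_nonneg_left e2 hN₁p.le
      linarith
    have e4 := Real.logb_le_logb_of_le one_lt_two hAp e3
    rw [Real.logb_mul (by norm_num) (mul_pos hN₁p (mul_pos hN₂p hB₂r)).ne',
      Real.logb_mul hN₁p.ne' (mul_pos hN₂p hB₂r).ne',
      Real.logb_mul hN₂p.ne' hB₂r.ne'] at e4
    have e5 : Real.logb 2 4 = 2 := by
      rw [show (4 : ℝ) = 2 ^ (2 : ℝ) by norm_num]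
      exact Real.logb_rpow (by norm_num) (by norm_num)
    have e6 : Real.logb 2 N₁ = q + q * Real.logb 2 (2 * m * (q : ℝ) ^ 2 + 1) := by
      rw [hN₁v, Real.logb_mul (by positivity) (by positivity), Real.logb_pow, Real.logb_pow,
        Real.logb_self_eq_one one_lt_two]
      ring
    have e7 : Real.logb 2 N₂ ≤ s₀ * Lg n := by
      rw [hN₂v, Real.logb_pow]
      unfold Lg
      have : (S.card : ℝ) ≤ s₀ := by exact_mod_cast hZ₀S.1
      exact mul_le_mul_of_nonneg_right this hLg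
    unfold lb
    linarith
  have hq0 : (0 : ℝ) ≤ q := Nat.cast_nonneg _
  have hlast : Real.logb 2 (2 * m * (q : ℝ) ^ 2 + 1) ≤
      Real.logb 2 (2 * m * (q : ℝ) ^ 2 * (q + 1) + 1) := by
    refine Real.logb_le_logb_of_le one_lt_two (by linarith) ?_
    have : (0 : ℝ) ≤ 2 * m * (q : ℝ) ^ 2 * q := by positivity
    nlinarith
  have hfin : ξ * Lg n * (τ₀ + 1) ≤ lb A.card - lb B₂.card := by
    refine le_trans ?_ hreg
    have := mul_le_mul_of_nonneg_left hsum hξ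
    linarith
  have hmul := mul_le_mul_of_nonneg_left hlast hq0
  nlinarith

end Pool.Agent.Helper65.CG
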